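import Mathlib

set_option autoImplicit false

/-!
# Algebraic entropy and subgroups of infinite index

For an amenable group `G` acting on an abelian group `A` by automorphisms and a subgroup `H`
of infinite index, finiteness of the algebraic entropy of the restricted action of `H` forces
the algebraic entropy of the action of `G` to vanish.
-/

open Filter Topology
open scoped Pointwise ENNReal

namespace Pool.Agent.Results.MP_2cfe26_al.InfiniteIndex

universe u v w

section Definitions

/-- The set `{s ∈ F : s E ⊄ F}` of the elements of `F` which a right translation by some element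
of `E` moves out of `F`. -/
noncomputable def bdry {G : Type u} [Group G] (E F : Finset G) : Finset G := by
  classical
  exact F.filter (fun s => ¬ ∀ e ∈ E, s * e ∈ F)

/-- A net `(F i)` (indexed by a directed set `I`) of finite non-empty subsets of the group `G` is
a right Følner net if `|{s ∈ F i : s E ⊄ F i}| / |F i| → 0` for every finite `E ⊆ G`. -/
structure IsRightFolnerNet {G : Type u} [Group G] {I : Type w} [Preorder I]
    (F : I → Finset G) : Prop where
  nonempty : ∀ i, (F i).Nonempty
  tendsto : ∀ E : Finset G,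
    Tendsto (fun i => ((bdry E (F i)).card : ℝ) / ((F i).card : ℝ)) atTop (𝓝 0)

/-- A (discrete) group is amenable if it has a right Følner net. -/
def Amenable (G : Type u) [Group G] : Prop :=
  ∃ (I : Type u) (_ : Preorder I) (_ : IsDirectedOrder I) (_ : Nonempty I) (F : I → Finset G),
    IsRightFolnerNet F

/-- The filter of finite non-empty subsets of `G` becoming right invariant: it is generated by the
sets `{F ≠ ∅ : |{s ∈ F : s E ⊄ F}| ≤ ε |F|}`, for `E ⊆ G` finite and `ε > 0`. A net of
finite non-empty subsets of `G` is a right Følner net if and only if it tends to this filter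
(`isRightFolnerNet_iff`). -/
noncomputable def folner (G : Type u) [Group G] : Filter (Finset G) :=
  ⨅ (E : Finset G) (ε : {x : ℝ // 0 < x}),
    𝓟 {F | F.Nonempty ∧ ((bdry E F).card : ℝ) ≤ (ε : ℝ) * (F.card : ℝ)}

/-- The trajectory `T_F(α, X) = ∑_{g ∈ F} g • X`, a finite sumset. -/
def traj {G : Type u} [Group G] {A : Type v} [AddCommGroup A] [DistribMulAction G A]
    (F : Finset G) (X : Set A) : Set A :=
  ∑ g ∈ F, g • X

/-- `H_alg(α, X)`: the limit of `log |T_{F i}(α, X)| / |F i|` along right Følner nets. -/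
noncomputable def Halg (G : Type u) [Group G] {A : Type v} [AddCommGroup A]
    [DistribMulAction G A] (X : Set A) : ℝ≥0∞ :=
  limUnder (folner G)
    (fun F => ENNReal.ofReal (Real.log ((traj F X).ncard : ℝ) / (F.card : ℝ)))

/-- The algebraic entropy `ent(α)`: the supremum in `[0, ∞]` of `H_alg(α, X)` over all finite
subgroups `X` of `A`. -/
noncomputable def ent (G : Type u) [Group G] (A : Type v) [AddCommGroup A]
    [DistribMulAction G A] : ℝ≥0∞ :=
  ⨆ (X : AddSubgroup A) (_ : (X : Set A).Finite), Halg G (X : Set A)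

end Definitions



/-- Shearer type inequality for submodular functions. -/
theorem shearer {G : Type u} [DecidableEq G] {J : Type w} (f : Finset G → ℝ)
    (h0 : f ∅ = 0) (hmono : ∀ P Q : Finset G, P ⊆ Q → f P ≤ f Q)
    (hsub : ∀ P Q : Finset G, f (P ∪ Q) + f (P ∩ Q) ≤ f P + f Q)
    (S : Finset J) (K : J → Finset G) (k : ℕ) (F : Finset G)
    (hk : ∀ x ∈ F, k ≤ (S.filter (fun j => x ∈ K j)).card) :
    (k : ℝ) * f F ≤ ∑ j ∈ S, f (K j ∩ F) := by
  classical
  induction F using Finset.induction_on with
  | empty => simp [h0]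
  | insert a F ha ih =>
    have ih' := ih (fun x hx => hk x (Finset.mem_insert_of_mem hx))
    have hka := hk a (Finset.mem_insert_self a F)
    have hstep : ∀ j ∈ S, f (K j ∩ F) +
        (if a ∈ K j then (f (insert a F) - f F) else 0) ≤ f (K j ∩ insert a F) := by
      intro j _
      by_cases haj : a ∈ K j
      · rw [if_pos haj]
        have hs := hsub F (insert a (K j ∩ F))
        have e1 : F ∪ insert a (K j ∩ F) = insert a F := by
          ext x; simp only [Finset.mem_union, Finset.mem_insert, Finset.mem_inter]; tauto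
        have e2 : F ∩ insert a (K j ∩ F) = K j ∩ F := by
          ext x; simp only [Finset.mem_insert, Finset.mem_inter]
          constructor
          · rintro ⟨hx, rfl | h⟩
            · exact absurd hx ha
            · exact h
          · rintro ⟨h1, h2⟩; exact ⟨h2, Or.inr ⟨h1, h2⟩⟩
        have e3 : K j ∩ insert a F = insert a (K j ∩ F) := by
          ext x; simp only [Finset.mem_insert, Finset.mem_inter]
          constructor
          · rintro ⟨h1, rfl | h2⟩
            · exact Or.inl rfl
            · exact Or.inr ⟨h1, h2⟩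
          · rintro (rfl | ⟨h1, h2⟩)
            · exact ⟨haj, Or.inl rfl⟩
            · exact ⟨h1, Or.inr h2⟩
        rw [e1, e2] at hs
        rw [e3]; linarith
      · rw [if_neg haj, add_zero]
        apply hmono
        intro x hx
        simp only [Finset.mem_inter, Finset.mem_insert] at hx ⊢
        exact ⟨hx.1, Or.inr hx.2⟩
    have hsum := Finset.sum_le_sum hstep
    rw [Finset.sum_add_distrib, ← Finset.sum_filter, Finset.sum_const, nsmul_eq_mul] at hsum
    have hm : 0 ≤ f (insert a F) - f F := by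
      have := hmono F (insert a F) (Finset.subset_insert a F); linarith
    have hka' : (k : ℝ) ≤ ((S.filter (fun j => a ∈ K j)).card : ℝ) := by exact_mod_cast hka
    have := mul_le_mul_of_nonneg_right hka' hm
    nlinarith

/-- Upper bound for an invariant submodular function on a nearly invariant set. -/
theorem upper {G : Type u} [Group G] [DecidableEq G] (f : Finset G → ℝ)
    (h0 : f ∅ = 0) (hmono : ∀ P Q : Finset G, P ⊆ Q → f P ≤ f Q)
    (hsub : ∀ P Q : Finset G, f (P ∪ Q) + f (P ∩ Q) ≤ f P + f Q)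
    (hinv : ∀ (g : G) (P : Finset G), f (g • P) = f P)
    (T : Finset G) (hT : T.Nonempty) (F : Finset G) :
    (T.card : ℝ) * f F ≤
      ((F.card : ℝ) + (T.card : ℝ) * (((F.filter (fun s => ¬ ∀ e ∈ T⁻¹ * T, s * e ∈ F)).card : ℕ) : ℝ))
        * f T := by
  classical
  have hpos : ∀ P : Finset G, 0 ≤ f P := fun P => h0 ▸ hmono ∅ P (Finset.empty_subset P)
  set S : Finset G := F * T⁻¹ with hS
  have hcount : ∀ x ∈ F, T.card ≤ (S.filter (fun s => x ∈ s • T)).card := by
    intro x hx
    have : (T.image (fun t => x * t⁻¹)) ⊆ S.filter (fun s => x ∈ s • T) := by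
      intro s hs
      rw [Finset.mem_image] at hs
      obtain ⟨t, ht, rfl⟩ := hs
      rw [Finset.mem_filter]
      refine ⟨Finset.mul_mem_mul hx (Finset.inv_mem_inv ht), ?_⟩
      rw [Finset.mem_smul_finset]
      exact ⟨t, ht, by simp⟩
    calc T.card = (T.image (fun t => x * t⁻¹)).card := by
          rw [Finset.card_image_of_injective]
          intro a b hab
          simpa using hab
      _ ≤ _ := Finset.card_le_card this
  have h1 := shearer f h0 hmono hsub S (fun s => s • T) T.card F hcount
  -- split the sum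
  have h2 : ∑ s ∈ S, f (s • T ∩ F) ≤ ∑ s ∈ S, f T := by
    apply Finset.sum_le_sum
    intro s _
    calc f (s • T ∩ F) ≤ f (s • T) := hmono _ _ Finset.inter_subset_left
      _ = f T := hinv s T
  rw [Finset.sum_const, nsmul_eq_mul] at h2
  have hcard : (S.card : ℝ) ≤ (F.card : ℝ) +
      (T.card : ℝ) * (((F.filter (fun s => ¬ ∀ e ∈ T⁻¹ * T, s * e ∈ F)).card : ℕ) : ℝ) := by
    set D := F.filter (fun s => ¬ ∀ e ∈ T⁻¹ * T, s * e ∈ F) with hD
    have hsubS : S ⊆ (S.filter (fun s => s • T ⊆ F)) ∪ (D * T⁻¹) := by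
      intro s hs
      rw [Finset.mem_union, Finset.mem_filter]
      by_cases h : s • T ⊆ F
      · exact Or.inl ⟨hs, h⟩
      · right
        rw [hS, Finset.mem_mul] at hs
        obtain ⟨x, hx, y, hy, rfl⟩ := hs
        rw [Finset.mem_inv] at hy
        obtain ⟨t, ht, rfl⟩ := hy
        apply Finset.mul_mem_mul _ (Finset.inv_mem_inv ht)
        rw [hD, Finset.mem_filter]
        refine ⟨hx, fun hall => h ?_⟩
        intro z hz
        rw [Finset.mem_smul_finset] at hz
        obtain ⟨t', ht', rfl⟩ := hz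
        have := hall (t⁻¹ * t') (Finset.mul_mem_mul (Finset.inv_mem_inv ht) ht')
        simpa [smul_eq_mul, mul_assoc] using this
    have hA : (S.filter (fun s => s • T ⊆ F)).card ≤ F.card := by
      obtain ⟨t0, ht0⟩ := hT
      apply Finset.card_le_card_of_injOn (fun s => s * t0)
      · intro s hs
        rw [Finset.coe_filter, Set.mem_ofPred_eq] at hs
        exact hs.2 (Finset.smul_mem_smul_finset ht0)
      · intro a _ b _ hab
        simpa using hab
    have hB : (D * T⁻¹).card ≤ T.card * D.card := by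
      calc (D * T⁻¹).card ≤ D.card * (T⁻¹).card := Finset.card_mul_le
        _ = T.card * D.card := by rw [Finset.card_inv, mul_comm]
    have := (Finset.card_le_card hsubS).trans (Finset.card_union_le _ _)
    have h3 : S.card ≤ F.card + T.card * D.card := by omega
    exact_mod_cast h3
  calc (T.card : ℝ) * f F ≤ ∑ s ∈ S, f (s • T ∩ F) := h1
    _ ≤ (S.card : ℝ) * f T := h2
    _ ≤ _ := mul_le_mul_of_nonneg_right hcard (hpos T)

theorem mem_folner_basic {G : Type u} [Group G] (E : Finset G) {ε : ℝ} (hε : 0 < ε) :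
    {F : Finset G | F.Nonempty ∧ ((bdry E F).card : ℝ) ≤ ε * (F.card : ℝ)} ∈ folner G := by
  have h1 : (⨅ (ε : {x : ℝ // 0 < x}),
      𝓟 {F : Finset G | F.Nonempty ∧ ((bdry E F).card : ℝ) ≤ (ε : ℝ) * (F.card : ℝ)}) ≤
      𝓟 {F : Finset G | F.Nonempty ∧ ((bdry E F).card : ℝ) ≤ ε * (F.card : ℝ)} :=
    iInf_le (fun ε : {x : ℝ // 0 < x} =>
      𝓟 {F : Finset G | F.Nonempty ∧ ((bdry E F).card : ℝ) ≤ (ε : ℝ) * (F.card : ℝ)}) ⟨ε, hε⟩
  have h2 : folner G ≤
      𝓟 {F : Finset G | F.Nonempty ∧ ((bdry E F).card : ℝ) ≤ ε * (F.card : ℝ)} :=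
    le_trans (iInf_le _ E) h1
  exact h2 (mem_principal_self _)

/-- The infimum of `f F / |F|` over the finite non-empty sets. -/
noncomputable def infq {G : Type u} (f : Finset G → ℝ) : ℝ :=
  ⨅ T : {T : Finset G // T.Nonempty}, f T / ((T : Finset G).card : ℝ)

/-- The infimum rule: the quotients `f F / |F|` converge to their infimum. -/
theorem tendsto_infq {G : Type u} [Group G] [DecidableEq G] (f : Finset G → ℝ)
    (h0 : f ∅ = 0) (hmono : ∀ P Q : Finset G, P ⊆ Q → f P ≤ f Q)
    (hsub : ∀ P Q : Finset G, f (P ∪ Q) + f (P ∩ Q) ≤ f P + f Q)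
    (hinv : ∀ (g : G) (P : Finset G), f (g • P) = f P) :
    Tendsto (fun F => f F / (F.card : ℝ)) (folner G) (𝓝 (infq f)) := by
  classical
  have hpos : ∀ P : Finset G, 0 ≤ f P := fun P => h0 ▸ hmono ∅ P (Finset.empty_subset P)
  have hbdd : BddBelow (Set.range
      (fun T : {T : Finset G // T.Nonempty} => f T / ((T : Finset G).card : ℝ))) :=
    ⟨0, by rintro _ ⟨T, rfl⟩; exact div_nonneg (hpos _) (Nat.cast_nonneg _)⟩
  have : Nonempty {T : Finset G // T.Nonempty} := ⟨⟨{1}, Finset.singleton_nonempty 1⟩⟩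
  rw [Metric.tendsto_nhds]
  intro ε hε
  obtain ⟨⟨T, hT⟩, hTlt⟩ := exists_lt_of_ciInf_lt
    (show (⨅ T : {T : Finset G // T.Nonempty}, f T / ((T : Finset G).card : ℝ)) < infq f + ε / 2 by
      unfold infq; linarith)
  have hfT := hpos T
  have hε' : 0 < ε / (2 * (f T + 1)) := by positivity
  filter_upwards [mem_folner_basic (T⁻¹ * T) hε'] with F hF
  obtain ⟨hFne, hFb⟩ := hF
  have hFc : (0 : ℝ) < (F.card : ℝ) := by exact_mod_cast hFne.card_pos
  have hTc : (0 : ℝ) < (T.card : ℝ) := by exact_mod_cast hT.card_pos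
  have hlow : infq f ≤ f F / (F.card : ℝ) :=
    ciInf_le hbdd (⟨F, hFne⟩ : {T : Finset G // T.Nonempty})
  have hup := upper f h0 hmono hsub hinv T hT F
  have hb : (((F.filter (fun s => ¬ ∀ e ∈ T⁻¹ * T, s * e ∈ F)).card : ℕ) : ℝ) ≤
      ε / (2 * (f T + 1)) * (F.card : ℝ) := by
    have : F.filter (fun s => ¬ ∀ e ∈ T⁻¹ * T, s * e ∈ F) = bdry (T⁻¹ * T) F := by
      unfold bdry
      ext x
      simp
    rw [this]; exact hFb
  have hup2 : f F / (F.card : ℝ) ≤ f T / (T.card : ℝ) + ε / 2 := by
    have h1 : (T.card : ℝ) * f F ≤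
        ((F.card : ℝ) + (T.card : ℝ) * (ε / (2 * (f T + 1)) * (F.card : ℝ))) * f T :=
      hup.trans (mul_le_mul_of_nonneg_right (by nlinarith) hfT)
    have h2 : ε / (2 * (f T + 1)) * f T ≤ ε / 2 := by
      rw [div_mul_eq_mul_div, div_le_div_iff₀ (by positivity) (by norm_num)]
      nlinarith
    rw [div_le_iff₀ hFc]
    have h3 : (T.card : ℝ) * f F ≤ (T.card : ℝ) * ((f T / (T.card : ℝ) + ε / 2) * (F.card : ℝ)) := by
      calc (T.card : ℝ) * f F ≤ _ := h1
        _ = (F.card : ℝ) * f T + (T.card : ℝ) * (F.card : ℝ) * (ε / (2 * (f T + 1)) * f T) := by ring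
        _ ≤ (F.card : ℝ) * f T + (T.card : ℝ) * (F.card : ℝ) * (ε / 2) := by
            have : 0 ≤ (T.card : ℝ) * (F.card : ℝ) := by positivity
            nlinarith [mul_le_mul_of_nonneg_left h2 this]
        _ = _ := by field_simp
    exact le_of_mul_le_mul_left h3 hTc
  rw [Real.dist_eq, abs_of_nonneg (by linarith)]
  have : f T / (T.card : ℝ) < infq f + ε / 2 := hTlt
  linarith

section Action

variable {G : Type u} [Group G] {A : Type v} [AddCommGroup A] [DistribMulAction G A]

/-- The subgroup generated by the translates `g • X`, `g ∈ F`. -/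
def U (X : AddSubgroup A) (F : Finset G) : AddSubgroup A := ⨆ g ∈ F, g • X

theorem U_empty (X : AddSubgroup A) : U X (∅ : Finset G) = ⊥ := by simp [U]

theorem U_insert [DecidableEq G] (X : AddSubgroup A) (a : G) (F : Finset G) :
    U X (insert a F) = a • X ⊔ U X F := by
  unfold U
  rw [Finset.iSup_insert]

theorem U_union [DecidableEq G] (X : AddSubgroup A) (P Q : Finset G) :
    U X (P ∪ Q) = U X P ⊔ U X Q := by
  unfold U
  rw [Finset.iSup_union]

theorem U_mono (X : AddSubgroup A) {P Q : Finset G} (h : P ⊆ Q) : U X P ≤ U X Q :=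
  biSup_mono (fun _ hx => h hx)

theorem traj_eq (X : AddSubgroup A) (F : Finset G) :
    traj F (X : Set A) = (U X F : Set A) := by
  classical
  induction F using Finset.induction_on with
  | empty =>
    rw [U_empty]
    simp [traj, Set.singleton_zero]
  | insert a F ha ih =>
    have h1 : traj (insert a F) (X : Set A) = a • (X : Set A) + traj F (X : Set A) := by
      unfold traj
      rw [Finset.sum_insert ha]
    rw [h1, ih, U_insert, AddSubgroup.normal_add]
    rfl

theorem card_sup_mul_card_inf (P Q : AddSubgroup A) :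
    Nat.card (P ⊔ Q : AddSubgroup A) * Nat.card (P ⊓ Q : AddSubgroup A) =
      Nat.card P * Nat.card Q := by
  have key : ∀ {K L : AddSubgroup A}, K ≤ L → Nat.card K * K.relIndex L = Nat.card L := by
    intro K L hKL
    have := AddSubgroup.relIndex_mul_relIndex (⊥ : AddSubgroup A) K L bot_le hKL
    rwa [AddSubgroup.relIndex_bot_left, AddSubgroup.relIndex_bot_left] at this
  have h1 := key (K := Q) (L := P ⊔ Q) le_sup_right
  have h2 := key (K := P ⊓ Q) (L := P) inf_le_left
  have h3 : Q.relIndex (P ⊔ Q) = Q.relIndex P := AddSubgroup.relIndex_sup_right P Q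
  have h4 : (P ⊓ Q).relIndex P = Q.relIndex P := AddSubgroup.inf_relIndex_left P Q
  rw [h3] at h1
  rw [h4] at h2
  rw [← h1, ← h2]; ring

end Action

section Entropy

variable {G : Type u} [Group G] {A : Type v} [AddCommGroup A] [DistribMulAction G A]

theorem finite_smul (g : G) {X : AddSubgroup A} (hX : (X : Set A).Finite) :
    ((g • X : AddSubgroup A) : Set A).Finite := by
  rw [AddSubgroup.coe_pointwise_smul]
  exact hX.smul_set

theorem finite_sup {P Q : AddSubgroup A} (hP : (P : Set A).Finite) (hQ : (Q : Set A).Finite) :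
    ((P ⊔ Q : AddSubgroup A) : Set A).Finite := by
  rw [AddSubgroup.normal_add]
  exact hP.add hQ

theorem finite_U {X : AddSubgroup A} (hX : (X : Set A).Finite) (F : Finset G) :
    (U X F : Set A).Finite := by
  classical
  induction F using Finset.induction_on with
  | empty => rw [U_empty]; simp
  | insert a F ha ih =>
    rw [U_insert]
    exact finite_sup (finite_smul a hX) ih

/-- `log |T_F(X)|` for a finite subgroup `X`. -/
noncomputable def ell (X : AddSubgroup A) (F : Finset G) : ℝ :=
  Real.log (Nat.card (U X F) : ℝ)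

theorem log_traj (X : AddSubgroup A) (F : Finset G) :
    Real.log ((traj F (X : Set A)).ncard : ℝ) = ell X F := by
  unfold ell
  rw [traj_eq]
  rfl

theorem ell_empty (X : AddSubgroup A) : ell X (∅ : Finset G) = 0 := by
  unfold ell
  rw [U_empty]
  simp

theorem card_pos_of_finite {P : AddSubgroup A} (hP : (P : Set A).Finite) : 0 < Nat.card P := by
  have : Finite P := hP
  exact Nat.card_pos

theorem ell_mono {X : AddSubgroup A} (hX : (X : Set A).Finite) (P Q : Finset G) (h : P ⊆ Q) :
    ell X P ≤ ell X Q := by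
  unfold ell
  have hQ : Finite (U X Q) := finite_U hX Q
  have h1 : Nat.card (U X P) ≤ Nat.card (U X Q) :=
    Nat.card_le_card_of_injective (AddSubgroup.inclusion (U_mono X h))
      (AddSubgroup.inclusion_injective _)
  have h2 := card_pos_of_finite (finite_U hX P)
  exact Real.log_le_log (by exact_mod_cast h2) (by exact_mod_cast h1)

theorem ell_sub [DecidableEq G] {X : AddSubgroup A} (hX : (X : Set A).Finite) (P Q : Finset G) :
    ell X (P ∪ Q) + ell X (P ∩ Q) ≤ ell X P + ell X Q := by
  have h1 : Nat.card (U X (P ∩ Q)) ≤ Nat.card (U X P ⊓ U X Q : AddSubgroup A) := by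
    have hfin : Finite (U X P ⊓ U X Q : AddSubgroup A) :=
      (finite_U hX P).subset (by exact inf_le_left (a := U X P) (b := U X Q))
    exact Nat.card_le_card_of_injective (AddSubgroup.inclusion
      (le_inf (U_mono X Finset.inter_subset_left) (U_mono X Finset.inter_subset_right)))
      (AddSubgroup.inclusion_injective _)
  have h2 := card_pos_of_finite (finite_U (G := G) hX (P ∩ Q))
  have h3 : ell X (P ∩ Q) ≤ Real.log (Nat.card (U X P ⊓ U X Q : AddSubgroup A) : ℝ) :=
    Real.log_le_log (by exact_mod_cast h2) (by exact_mod_cast h1)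
  have h4 := card_sup_mul_card_inf (U X P) (U X Q)
  have p1 := card_pos_of_finite (finite_sup (finite_U (G := G) hX P) (finite_U hX Q))
  have p2 : 0 < Nat.card (U X P ⊓ U X Q : AddSubgroup A) := lt_of_lt_of_le h2 h1
  have p3 := card_pos_of_finite (finite_U (G := G) hX P)
  have p4 := card_pos_of_finite (finite_U (G := G) hX Q)
  have h5 : Real.log (Nat.card (U X P ⊔ U X Q : AddSubgroup A) : ℝ) +
      Real.log (Nat.card (U X P ⊓ U X Q : AddSubgroup A) : ℝ) =
      Real.log (Nat.card (U X P) : ℝ) + Real.log (Nat.card (U X Q) : ℝ) := by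
    rw [← Real.log_mul (by positivity) (by positivity), ← Real.log_mul (by positivity) (by positivity)]
    congr 1
    exact_mod_cast h4
  have h6 : ell X (P ∪ Q) = Real.log (Nat.card (U X P ⊔ U X Q : AddSubgroup A) : ℝ) := by
    unfold ell
    rw [U_union]
  rw [h6]
  have h7 : ell X P = Real.log (Nat.card (U X P) : ℝ) := rfl
  have h8 : ell X Q = Real.log (Nat.card (U X Q) : ℝ) := rfl
  rw [h7, h8]
  linarith

theorem U_smul [DecidableEq G] (X : AddSubgroup A) (g : G) (P : Finset G) :
    U X (g • P) = g • U X P := by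
  classical
  have hs : ∀ S : AddSubgroup A, g • S = S.map (DistribSMul.toAddMonoidHom A g) :=
    fun S => rfl
  induction P using Finset.induction_on with
  | empty =>
    rw [Finset.smul_finset_empty, U_empty, hs, AddSubgroup.map_bot]
  | insert a F ha ih =>
    rw [Finset.smul_finset_insert, U_insert, U_insert, ih,
      hs (a • X ⊔ U X F), AddSubgroup.map_sup, ← hs, ← hs, smul_eq_mul, mul_smul]

theorem ell_inv [DecidableEq G] (X : AddSubgroup A) (g : G) (P : Finset G) :
    ell X (g • P) = ell X P := by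
  unfold ell
  rw [U_smul]
  congr 2
  have h : ((g • U X P : AddSubgroup A) : Set A) = (fun a => g • a) '' (U X P : Set A) := by
    rw [AddSubgroup.coe_pointwise_smul]
    rfl
  calc Nat.card (g • U X P : AddSubgroup A)
      = Nat.card ((g • U X P : AddSubgroup A) : Set A) := rfl
    _ = Nat.card ((fun a => g • a) '' (U X P : Set A) : Set A) := by rw [h]
    _ = Nat.card (U X P : Set A) := Nat.card_image_of_injective (MulAction.injective g) _
    _ = Nat.card (U X P) := rfl

/-- The limit defining `H_alg(α, X)` exists for a finite subgroup `X` and equals the infimum of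
`log |T_F(X)| / |F|`. -/
theorem tendsto_Halg {X : AddSubgroup A} (hX : (X : Set A).Finite) :
    Tendsto (fun F : Finset G =>
      ENNReal.ofReal (Real.log ((traj F (X : Set A)).ncard : ℝ) / (F.card : ℝ)))
      (folner G) (𝓝 (ENNReal.ofReal (infq (ell (G := G) X)))) := by
  classical
  have h := tendsto_infq (ell (G := G) X) (ell_empty X) (ell_mono hX) (ell_sub hX) (ell_inv X)
  have h2 := (ENNReal.continuous_ofReal.tendsto (infq (ell (G := G) X))).comp h
  refine h2.congr (fun F => ?_)
  simp only [Function.comp]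
  rw [log_traj]

theorem Halg_eq (hG : (folner G).NeBot) {X : AddSubgroup A} (hX : (X : Set A).Finite) :
    Halg G (X : Set A) = ENNReal.ofReal (infq (ell (G := G) X)) :=
  (tendsto_Halg hX).limUnder_eq

end Entropy

section Sub

variable {G : Type u} [Group G] {A : Type v} [AddCommGroup A] [DistribMulAction G A]

theorem U_U [DecidableEq G] (H : Subgroup G) (X : AddSubgroup A) (F : Finset G) (E : Finset H) :
    U (U X F) E = U X (E.image (fun h : H => (h : G)) * F) := by
  classical
  induction E using Finset.induction_on with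
  | empty => simp [U_empty]
  | insert h E hh ih =>
    rw [U_insert, ih, Finset.image_insert]
    have h1 : insert (h : G) (E.image (fun h : H => (h : G))) * F =
        (h : G) • F ∪ (E.image (fun h : H => (h : G))) * F := by
      rw [Finset.insert_eq, Finset.union_mul, Finset.singleton_mul]
    rw [h1, U_union, U_smul]
    rfl

/-- If the elements of `F` lie in distinct right cosets of `H`, then
`|F| * inf_G ≤ inf_H` where the second infimum is for the subgroup `T_F(X)`. -/
theorem infq_le (H : Subgroup G) {X : AddSubgroup A} (hX : (X : Set A).Finite) (F : Finset G)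
    (hF : ∀ a ∈ F, ∀ b ∈ F, a * b⁻¹ ∈ H → a = b) :
    (F.card : ℝ) * infq (ell (G := G) X) ≤ infq (ell (G := H) (U X F)) := by
  classical
  have hpos : ∀ P : Finset G, 0 ≤ ell X P := by
    intro P
    have := ell_mono hX ∅ P (Finset.empty_subset P)
    rwa [ell_empty] at this
  have hbdd : BddBelow (Set.range
      (fun T : {T : Finset G // T.Nonempty} => ell X (T : Finset G) / ((T : Finset G).card : ℝ))) :=
    ⟨0, by rintro _ ⟨T, rfl⟩; exact div_nonneg (hpos _) (Nat.cast_nonneg _)⟩
  have : Nonempty {T : Finset H // T.Nonempty} := ⟨⟨{1}, Finset.singleton_nonempty 1⟩⟩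
  rcases F.eq_empty_or_nonempty with rfl | hFne
  · simp only [Finset.card_empty, Nat.cast_zero, zero_mul]
    apply le_ciInf
    rintro ⟨T, hT⟩
    apply div_nonneg _ (Nat.cast_nonneg _)
    have hfin : ((U X (∅ : Finset G) : AddSubgroup A) : Set A).Finite := finite_U hX ∅
    have := ell_mono (G := H) hfin ∅ T (Finset.empty_subset T)
    rwa [ell_empty] at this
  apply le_ciInf
  rintro ⟨E, hE⟩
  set E' : Finset G := E.image (fun h : H => (h : G)) with hE'
  have hcard' : E'.card = E.card := Finset.card_image_of_injective _ Subtype.val_injective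
  have hcard : (E' * F).card = E.card * F.card := by
    rw [← hcard', Finset.card_mul_iff.mpr]
    rintro ⟨a, b⟩ hab ⟨c, d⟩ hcd heq
    simp only [Set.mem_prod, Finset.mem_coe] at hab hcd
    simp only at heq
    obtain ⟨ha, hb⟩ := hab
    obtain ⟨hc, hd⟩ := hcd
    rw [hE', Finset.mem_image] at ha hc
    obtain ⟨a, _, rfl⟩ := ha
    obtain ⟨c, _, rfl⟩ := hc
    have h1 : b * d⁻¹ = (a : G)⁻¹ * (c : G) := by
      rw [eq_inv_mul_iff_mul_eq, ← mul_assoc, heq, mul_inv_cancel_right]
    have h2 : b * d⁻¹ ∈ H := by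
      rw [h1]
      exact H.mul_mem (H.inv_mem a.2) c.2
    have h3 := hF b hb d hd h2
    subst h3
    have h4 : (a : G) = c := mul_right_cancel heq
    rw [h4]
  have hne : (E' * F).Nonempty := (hE.image _).mul hFne
  have h1 : infq (ell (G := G) X) ≤ ell X (E' * F) / ((E' * F).card : ℝ) :=
    ciInf_le hbdd (⟨E' * F, hne⟩ : {T : Finset G // T.Nonempty})
  have hEc : (0 : ℝ) < (E.card : ℝ) := by exact_mod_cast hE.card_pos
  have hFc : (0 : ℝ) < (F.card : ℝ) := by exact_mod_cast hFne.card_pos
  have h2 : ell (G := H) (U X F) E = ell X (E' * F) := by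
    unfold ell
    rw [U_U]
  show (F.card : ℝ) * infq (ell (G := G) X) ≤ ell (G := H) (U X F) E / (E.card : ℝ)
  rw [h2]
  rw [hcard, Nat.cast_mul, le_div_iff₀ (by positivity)] at h1
  rw [le_div_iff₀ hEc]
  calc (F.card : ℝ) * infq (ell (G := G) X) * (E.card : ℝ)
      = infq (ell (G := G) X) * ((E.card : ℝ) * (F.card : ℝ)) := by ring
    _ ≤ _ := h1

end Sub

section Amenability

variable {G : Type u} [Group G]

theorem mem_bdry {E F : Finset G} {s : G} :
    s ∈ bdry E F ↔ s ∈ F ∧ ¬ ∀ e ∈ E, s * e ∈ F := by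
  classical
  unfold bdry
  simp

theorem bdry_mono {E E' F : Finset G} (h : E ⊆ E') : bdry E F ⊆ bdry E' F := by
  intro s hs
  rw [mem_bdry] at hs ⊢
  exact ⟨hs.1, fun hall => hs.2 (fun e he => hall e (h he))⟩

/-- The sets of a member of the Følner filter. -/
theorem mem_folner_iff {S : Set (Finset G)} :
    S ∈ folner G ↔ ∃ (E : Finset G) (ε : ℝ), 0 < ε ∧
      {F : Finset G | F.Nonempty ∧ ((bdry E F).card : ℝ) ≤ ε * (F.card : ℝ)} ⊆ S := by
  classical
  constructor
  · intro h
    have h' : S ∈ ⨅ p : Finset G × {x : ℝ // 0 < x},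
        𝓟 {F : Finset G | F.Nonempty ∧ ((bdry p.1 F).card : ℝ) ≤ (p.2 : ℝ) * (F.card : ℝ)} := by
      unfold folner at h
      rwa [iInf_prod]
    have : Nonempty (Finset G × {x : ℝ // 0 < x}) := ⟨(∅, ⟨1, one_pos⟩)⟩
    rw [mem_iInf_of_directed] at h'
    · obtain ⟨⟨E, ε⟩, hE⟩ := h'
      exact ⟨E, ε, ε.2, hE⟩
    · rintro ⟨E1, ε1⟩ ⟨E2, ε2⟩
      refine ⟨⟨E1 ∪ E2, ⟨min ε1 ε2, lt_min ε1.2 ε2.2⟩⟩, ?_, ?_⟩
      · apply principal_mono.mpr
        rintro F ⟨h1, h2⟩
        refine ⟨h1, ?_⟩
        calc ((bdry E1 F).card : ℝ) ≤ ((bdry (E1 ∪ E2) F).card : ℝ) := by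
              exact_mod_cast Finset.card_le_card (bdry_mono Finset.subset_union_left)
          _ ≤ min (ε1 : ℝ) ε2 * (F.card : ℝ) := h2
          _ ≤ (ε1 : ℝ) * (F.card : ℝ) :=
              mul_le_mul_of_nonneg_right (min_le_left _ _) (Nat.cast_nonneg _)
      · apply principal_mono.mpr
        rintro F ⟨h1, h2⟩
        refine ⟨h1, ?_⟩
        calc ((bdry E2 F).card : ℝ) ≤ ((bdry (E1 ∪ E2) F).card : ℝ) := by
              exact_mod_cast Finset.card_le_card (bdry_mono Finset.subset_union_right)
          _ ≤ min (ε1 : ℝ) ε2 * (F.card : ℝ) := h2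
          _ ≤ (ε2 : ℝ) * (F.card : ℝ) :=
              mul_le_mul_of_nonneg_right (min_le_right _ _) (Nat.cast_nonneg _)
  · rintro ⟨E, ε, hε, hS⟩
    exact mem_of_superset (mem_folner_basic E hε) hS

/-- A net of finite non-empty sets is a right Følner net iff it tends to the filter `folner G`. -/
theorem isRightFolnerNet_iff {I : Type w} [Preorder I] (F : I → Finset G) :
    IsRightFolnerNet F ↔ (∀ i, (F i).Nonempty) ∧ Tendsto F atTop (folner G) := by
  constructor
  · rintro ⟨h1, h2⟩
    refine ⟨h1, ?_⟩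
    intro S hS
    obtain ⟨E, ε, hε, hsub⟩ := mem_folner_iff.mp hS
    have h3 := (h2 E).eventually (eventually_le_nhds hε)
    rw [mem_map]
    filter_upwards [h3] with i hi
    apply hsub
    have hc : (0 : ℝ) < ((F i).card : ℝ) := by exact_mod_cast (h1 i).card_pos
    exact ⟨h1 i, by rwa [div_le_iff₀ hc] at hi⟩
  · rintro ⟨h1, h2⟩
    refine ⟨h1, fun E => ?_⟩
    rw [Metric.tendsto_nhds]
    intro ε hε
    have h3 := h2 (mem_folner_basic E (half_pos hε))
    rw [mem_map] at h3
    filter_upwards [h3] with i hi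
    obtain ⟨hi1, hi2⟩ := hi
    have hc : (0 : ℝ) < ((F i).card : ℝ) := by exact_mod_cast (h1 i).card_pos
    rw [Real.dist_eq, sub_zero, abs_of_nonneg (by positivity), div_lt_iff₀ hc]
    nlinarith

theorem amenable_iff : Amenable G ↔ (folner G).NeBot := by
  classical
  constructor
  · rintro ⟨I, _, _, _, F, hF⟩
    exact ((isRightFolnerNet_iff F).mp hF).2.neBot
  · intro h
    have hex : ∀ p : Finset G × ℕ, ∃ F : Finset G,
        F.Nonempty ∧ ((bdry p.1 F).card : ℝ) ≤ (1 / ((p.2 : ℝ) + 1)) * (F.card : ℝ) := by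
      rintro ⟨E, n⟩
      exact h.nonempty_of_mem (mem_folner_basic E (by positivity))
    choose F hF1 hF2 using hex
    refine ⟨Finset G × ℕ, inferInstance, inferInstance, inferInstance, F, hF1, fun E => ?_⟩
    rw [Metric.tendsto_nhds]
    intro ε hε
    obtain ⟨n, hn⟩ := exists_nat_one_div_lt hε
    filter_upwards [eventually_ge_atTop ((E, n) : Finset G × ℕ)] with p hp
    obtain ⟨hp1, hp2⟩ := hp
    have hc : (0 : ℝ) < ((F p).card : ℝ) := by exact_mod_cast (hF1 p).card_pos
    rw [Real.dist_eq, sub_zero, abs_of_nonneg (by positivity), div_lt_iff₀ hc]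
    calc ((bdry E (F p)).card : ℝ) ≤ ((bdry p.1 (F p)).card : ℝ) := by
          exact_mod_cast Finset.card_le_card (bdry_mono hp1)
      _ ≤ (1 / ((p.2 : ℝ) + 1)) * ((F p).card : ℝ) := hF2 p
      _ ≤ (1 / ((n : ℝ) + 1)) * ((F p).card : ℝ) := by
          apply mul_le_mul_of_nonneg_right _ hc.le
          apply one_div_le_one_div_of_le (by positivity)
          have : (n : ℝ) ≤ (p.2 : ℝ) := by exact_mod_cast hp2
          linarith
      _ < ε * ((F p).card : ℝ) := mul_lt_mul_of_pos_right hn hc

end Amenability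

section Final

variable {G : Type u} [Group G]

/-- Subgroups of amenable groups are amenable. -/
theorem folner_neBot_subgroup (hG : (folner G).NeBot) (H : Subgroup G) :
    (folner H).NeBot := by
  classical
  rw [← forall_mem_nonempty_iff_neBot]
  intro S hS
  obtain ⟨E, ε, hε, hsub⟩ := mem_folner_iff.mp hS
  suffices h : ∃ F : Finset H, F.Nonempty ∧ ((bdry E F).card : ℝ) ≤ ε * (F.card : ℝ) by
    obtain ⟨F, hF⟩ := h
    exact ⟨F, hsub hF⟩
  set E' : Finset G := E.image (fun h : H => (h : G)) with hE'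
  obtain ⟨F, hF1, hF2⟩ := hG.nonempty_of_mem (mem_folner_basic E' hε)
  -- the fibres over the left cosets
  let q : G → G ⧸ H := fun g => (g : G ⧸ H)
  have hex : ∃ c ∈ F.image q,
      (((bdry E' F).filter (fun s => q s = c)).card : ℝ) ≤
        ε * ((F.filter (fun s => q s = c)).card : ℝ) := by
    by_contra hcon
    push Not at hcon
    have h1 : F.card = ∑ c ∈ F.image q, (F.filter (fun s => q s = c)).card :=
      Finset.card_eq_sum_card_fiberwise (fun x hx => Finset.mem_coe.mpr (Finset.mem_image_of_mem q hx))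
    have h2 : (bdry E' F).card =
        ∑ c ∈ F.image q, ((bdry E' F).filter (fun s => q s = c)).card :=
      Finset.card_eq_sum_card_fiberwise (fun x hx =>
        Finset.mem_coe.mpr (Finset.mem_image_of_mem q (mem_bdry.mp (Finset.mem_coe.mp hx)).1))
    have h3 : (∑ c ∈ F.image q, ε * ((F.filter (fun s => q s = c)).card : ℝ)) <
        ∑ c ∈ F.image q, (((bdry E' F).filter (fun s => q s = c)).card : ℝ) :=
      Finset.sum_lt_sum_of_nonempty (hF1.image q) hcon
    rw [← Finset.mul_sum, ← Nat.cast_sum, ← Nat.cast_sum, ← h1, ← h2] at h3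
    linarith
  obtain ⟨c, hc, hcb⟩ := hex
  rw [Finset.mem_image] at hc
  obtain ⟨x0, hx0, hx0c⟩ := hc
  have hinj : Function.Injective (fun h : H => x0 * (h : G)) := by
    intro a b hab
    exact Subtype.val_injective (mul_left_cancel hab)
  set F' : Finset H := F.preimage (fun h : H => x0 * (h : G)) hinj.injOn with hF'
  have himg : F'.image (fun h : H => x0 * (h : G)) = F.filter (fun s => q s = c) := by
    ext y
    simp only [Finset.mem_image, Finset.mem_filter, hF', Finset.mem_preimage]
    constructor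
    · rintro ⟨h, h1, rfl⟩
      refine ⟨h1, ?_⟩
      rw [← hx0c]
      exact (QuotientGroup.eq.mpr (by simp)).symm
    · rintro ⟨h1, h2⟩
      have h3 : x0⁻¹ * y ∈ H := QuotientGroup.eq.mp (hx0c.trans h2.symm)
      exact ⟨⟨x0⁻¹ * y, h3⟩, by simpa using h1, by simp⟩
  have hcard : (F.filter (fun s => q s = c)).card = F'.card := by
    rw [← himg, Finset.card_image_of_injective _ hinj]
  have hbimg : (bdry E F').image (fun h : H => x0 * (h : G)) ⊆
      (bdry E' F).filter (fun s => q s = c) := by
    intro y hy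
    rw [Finset.mem_image] at hy
    obtain ⟨h, hh, rfl⟩ := hy
    rw [mem_bdry] at hh
    obtain ⟨hh1, hh2⟩ := hh
    have hh1' : x0 * (h : G) ∈ F := by simpa [hF'] using hh1
    rw [Finset.mem_filter, mem_bdry]
    refine ⟨⟨hh1', fun hall => hh2 (fun e he => ?_)⟩, ?_⟩
    · have := hall (e : G) (by rw [hE']; exact Finset.mem_image_of_mem _ he)
      rw [hF', Finset.mem_preimage]
      simpa [mul_assoc] using this
    · rw [← hx0c]
      exact (QuotientGroup.eq.mpr (by simp)).symm
  have hbcard : ((bdry E F').card : ℝ) ≤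
      (((bdry E' F).filter (fun s => q s = c)).card : ℝ) := by
    rw [← Finset.card_image_of_injective (bdry E F') hinj]
    exact_mod_cast Finset.card_le_card hbimg
  refine ⟨F', ?_, ?_⟩
  · rw [← Finset.card_pos, ← hcard, Finset.card_pos]
    exact ⟨x0, Finset.mem_filter.mpr ⟨hx0, hx0c⟩⟩
  · rw [← hcard]
    exact hbcard.trans hcb

theorem amenable_subgroup (hG : Amenable G) (H : Subgroup G) : Amenable H :=
  amenable_iff.mpr (folner_neBot_subgroup (amenable_iff.mp hG) H)

/-- `H_alg` is the common limit along all right Følner nets. -/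
theorem tendsto_of_isRightFolnerNet {A : Type v} [AddCommGroup A] [DistribMulAction G A]
    {I : Type w} [Preorder I] [IsDirectedOrder I] [Nonempty I] (F : I → Finset G)
    (hF : IsRightFolnerNet F) (X : AddSubgroup A) (hX : (X : Set A).Finite) :
    Tendsto (fun i => ENNReal.ofReal
      (Real.log ((traj (F i) (X : Set A)).ncard : ℝ) / ((F i).card : ℝ)))
      atTop (𝓝 (Halg G (X : Set A))) := by
  have h1 := ((isRightFolnerNet_iff F).mp hF).2
  rw [Halg_eq h1.neBot hX]
  exact (tendsto_Halg hX).comp h1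

variable {A : Type v} [AddCommGroup A] [DistribMulAction G A]

theorem card_mul_Halg_le (hG : Amenable G) (H : Subgroup G) {X : AddSubgroup A}
    (hX : (X : Set A).Finite) (F : Finset G)
    (hF : ∀ a ∈ F, ∀ b ∈ F, a * b⁻¹ ∈ H → a = b) :
    (F.card : ℝ≥0∞) * Halg G (X : Set A) ≤ ent H A := by
  have h1 := infq_le H hX F hF
  have hG' := amenable_iff.mp hG
  have h2 : (F.card : ℝ≥0∞) * Halg G (X : Set A) ≤ Halg H ((U X F : AddSubgroup A) : Set A) := by
    rw [Halg_eq hG' hX, Halg_eq (folner_neBot_subgroup hG' H) (finite_U hX F)]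
    rw [← ENNReal.ofReal_natCast, ← ENNReal.ofReal_mul (Nat.cast_nonneg _)]
    exact ENNReal.ofReal_le_ofReal h1
  refine h2.trans ?_
  unfold ent
  exact le_iSup₂_of_le (U X F) (finite_U hX F) le_rfl

theorem exists_finset_of_index_zero (H : Subgroup G) (hH : H.index = 0) (n : ℕ) :
    ∃ F : Finset G, F.card = n ∧ ∀ a ∈ F, ∀ b ∈ F, a * b⁻¹ ∈ H → a = b := by
  classical
  have : Infinite (G ⧸ H) := Subgroup.index_eq_zero_iff_infinite.mp hH
  obtain ⟨Q, hQ⟩ := Infinite.exists_subset_card_eq (G ⧸ H) n
  have hinj : Function.Injective (fun c : G ⧸ H => (c.out)⁻¹) := by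
    intro a b hab
    exact Quotient.out_injective (inv_injective hab)
  refine ⟨Q.image (fun c => (c.out)⁻¹), by rw [Finset.card_image_of_injective _ hinj, hQ], ?_⟩
  intro a ha b hb hab
  rw [Finset.mem_image] at ha hb
  obtain ⟨c, _, rfl⟩ := ha
  obtain ⟨d, _, rfl⟩ := hb
  rw [inv_inv] at hab
  have : c = d := by
    rw [← QuotientGroup.out_eq' c, ← QuotientGroup.out_eq' d]
    exact QuotientGroup.eq.mpr hab
  rw [this]

end Final

/-- **Main result.** If an amenable group `G` acts on an abelian group `A` by automorphisms and `H`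
is a subgroup of infinite index such that the restricted action of `H` has finite algebraic entropy,
then the action of `G` has algebraic entropy zero. -/
theorem result (G : Type u) [Group G] (A : Type v) [AddCommGroup A] [DistribMulAction G A]
    (hG : Amenable G) (H : Subgroup G) (hindex : H.index = 0) (hfin : ent H A < ⊤) :
    ent G A = 0 := by
  unfold ent
  simp only [ENNReal.iSup_eq_zero]
  intro X hX
  by_contra hne
  have key : ∀ n : ℕ, (n : ℝ≥0∞) * Halg G (X : Set A) ≤ ent H A := by
    intro n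
    obtain ⟨F, hFc, hF⟩ := exists_finset_of_index_zero H hindex n
    rw [← hFc]
    exact card_mul_Halg_le hG H hX F hF
  have h1 : ⨆ n : ℕ, (n : ℝ≥0∞) * Halg G (X : Set A) ≤ ent H A := iSup_le key
  rw [← ENNReal.iSup_mul, ENNReal.iSup_natCast, ENNReal.top_mul hne] at h1
  exact absurd hfin (not_lt.mpr h1)

end Pool.Agent.Results.MP_2cfe26_al.InfiniteIndex
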